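import Pool.Agent.Q313.NG.Low

/-! Asymptotic form. -/

open Finset Filter
open scoped Topology

namespace Pool.Agent.Q313.NG

open Pool.Agent.TH220.NT Pool.Agent.TH220.LC Pool.Agent.H235R2.QLP

theorem gap_asym (F : Type) [Field F] [Fintype F] [DecidableEq F] {ε : ℝ} (hε : 0 < ε) :
    ∃ η₀ : ℝ, 0 < η₀ ∧ η₀ < 1 / 100 ∧ ∀ η : ℝ, 0 < η → η ≤ η₀ → ∃ n0 : ℕ, ∀ n ≥ n0,
      ∀ d : ℝ, 0 < d → ∀ C : Finset (Fin n → F),
        (∀ x ∈ C, ∀ y ∈ C, x ≠ y → d ≤ hammingDist x y) → ∀ A : ℕ,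
        (∀ Q : Finset (Fin n → F), (∀ x ∈ Q, ∀ y ∈ Q, x ≠ y → (2 - η) * d ≤ hammingDist x y) →
          Q.card ≤ A) →
        (C.card : ℝ) ^ 2 ≤ (2 : ℝ) ^ (ε * n) * A *
          (pairs C ((1 + η) * d) ((2 - η) * d) + C.card) := by
  classical
  have hq : 2 ≤ Fintype.card F := Fintype.one_lt_card
  set q := Fintype.card F with hqd
  have hq2 : (2 : ℝ) ≤ q := by exact_mod_cast hq
  have hq0 : (0 : ℝ) < q := by linarith
  have hlog : 0 < Real.log 2 := Real.log_pos (by norm_num)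
  set γ : ℝ := ε * Real.log 2 / (2 * q) with hγ
  have hγ0 : 0 < γ := by positivity
  have hG : ∀ᶠ v in 𝓝[>] (0 : ℝ), 5 * Pool.Agent.TH220.NT.G v < γ := by
    have h2 : Tendsto (fun v => 5 * Pool.Agent.TH220.NT.G v) (𝓝[>] 0)
        (𝓝 (5 * Pool.Agent.TH220.NT.G 0)) :=
      ((continuous_const.mul continuous_G).tendsto 0).mono_left nhdsWithin_le_nhds
    rw [G_zero, mul_zero] at h2
    exact h2.eventually (gt_mem_nhds hγ0)
  have hvI : ∀ᶠ v in 𝓝[>] (0 : ℝ), v ∈ Set.Ioo (0 : ℝ) (1 / 4) := Ioo_mem_nhdsGT (by norm_num)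
  obtain ⟨v, hv, hv14⟩ := (hG.and hvI).exists
  obtain ⟨hv0, hv1⟩ := hv14
  have hsv : 0 < √v / 4 := by positivity
  refine ⟨min (1 / 200) (√v / 4), lt_min (by norm_num) hsv,
    lt_of_le_of_lt (min_le_left _ _) (by norm_num), fun η hη0 hηle => ?_⟩
  have hη100 : η < 1 / 100 := lt_of_le_of_lt (hηle.trans (min_le_left _ _)) (by norm_num)
  have hηv : η ^ 2 ≤ v / 16 := by
    have h2 : η ≤ √v / 4 := hηle.trans (min_le_right _ _)
    have h3 : η ^ 2 ≤ (√v / 4) ^ 2 := pow_le_pow_left₀ hη0.le h2 2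
    rw [div_pow, Real.sq_sqrt hv0.le] at h3
    linarith
  obtain ⟨J, hJ⟩ := exists_nat_gt (1 / η)
  have hJ0 : (0 : ℝ) < J := lt_trans (by positivity) hJ
  have hJ1 : 1 ≤ J := by
    have : 0 < J := by exact_mod_cast hJ0
    omega
  have hJη : 1 / (J : ℝ) ≤ η := by
    rw [div_lt_iff₀ hη0] at hJ
    rw [div_le_iff₀ hJ0]
    linarith
  set α : ℝ := √(1 + η) with hα
  set β : ℝ := √(2 - η) with hβ
  have hα2 : α ^ 2 = 1 + η := Real.sq_sqrt (by linarith)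
  have hβ2 : β ^ 2 = 2 - η := Real.sq_sqrt (by linarith)
  have hα1 : 1 ≤ α := by
    rw [hα, Real.le_sqrt' one_pos]
    linarith
  have hαβ : α < β := Real.sqrt_lt_sqrt (by linarith) (by linarith)
  have hcos1 : cosB α β 1 ^ 2 ≤ v := by
    have h2 : cosB α β 1 = 3 * η / (2 + 2 * η) := by
      unfold cosB
      rw [hα2, hβ2]
      have : (2 + 2 * η) ≠ 0 := by positivity
      field_simp
      push_cast
      ring
    have h3 : 3 * η / (2 + 2 * η) ≤ 3 * η / 2 :=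
      div_le_div_of_nonneg_left (by positivity) (by norm_num) (by linarith)
    have h4 : (0 : ℝ) ≤ 3 * η / (2 + 2 * η) := by positivity
    rw [h2]
    calc (3 * η / (2 + 2 * η)) ^ 2 ≤ (3 * η / 2) ^ 2 := pow_le_pow_left₀ h4 h3 2
      _ ≤ v := by nlinarith
  have hcosJ : cosB α 1 J ^ 2 ≤ v := by
    have h2 : cosB α 1 J = (2 * η + 1 / J) / (1 + (2 * η + 1 / J)) := by
      unfold cosB
      rw [hα2]
      have : (1 + (2 * η + 1 / (J : ℝ))) ≠ 0 := by positivity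
      have e : 2 * (1 + η) - 1 + 1 / (J : ℝ) = 1 + (2 * η + 1 / J) := by ring
      rw [e, one_pow, eq_div_iff this, sub_mul, one_mul, one_div_mul_cancel this]
      ring
    have h3 : (2 * η + 1 / J) / (1 + (2 * η + 1 / J)) ≤ 3 * η := by
      rw [div_le_iff₀ (by positivity)]
      have : 0 ≤ 1 / (J : ℝ) := by positivity
      nlinarith
    have h4 : (0 : ℝ) ≤ (2 * η + 1 / J) / (1 + (2 * η + 1 / J)) := by positivity
    rw [h2]
    calc ((2 * η + 1 / J) / (1 + (2 * η + 1 / J))) ^ 2 ≤ (3 * η) ^ 2 := pow_le_pow_left₀ h4 h3 2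
      _ ≤ v := by nlinarith
  have hvv : ∀ s : ℝ, s ^ 2 ≤ v → s ^ 2 * (1 + 2 * v) ^ 2 < 4 * v * (1 + v) := by
    intro s hs
    have h2 : (1 + 2 * v) ^ 2 ≤ 9 / 4 := by nlinarith
    calc s ^ 2 * (1 + 2 * v) ^ 2 ≤ v * (9 / 4) :=
          mul_le_mul hs h2 (by positivity) hv0.le
      _ < 4 * v * (1 + v) := by nlinarith
  have hD := D_asym (α := α) (β := β) hα1 (k := 2) (J := J) (m := 4) (fun _ => v) (v0 := v)
    (by
      intro i hi
      rw [Finset.mem_Ico] at hi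
      obtain rfl : i = 1 := by omega
      exact ⟨hv0, hvv _ hcos1⟩)
    hv0 (hvv _ hcosJ) (γ := γ) (by
      rw [Finset.sum_Ico_succ_top (by norm_num)]
      simp only [Finset.Ico_self, Finset.sum_empty, zero_add]
      push_cast
      linarith)
  rw [eventually_atTop] at hD
  obtain ⟨N1, hN1⟩ := hD
  refine ⟨max N1 (⌈2 / (ε / 2)⌉₊ + 1), ?_⟩
  intro n hn d hd C hC A hA
  have hnN1 : N1 ≤ n := (le_max_left _ _).trans hn
  have hnc : ⌈2 / (ε / 2)⌉₊ + 1 ≤ n := (le_max_right _ _).trans hn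
  have hn0 : 0 < n := by omega
  have hn0R : (0 : ℝ) < n := by exact_mod_cast hn0
  have hcn : 2 ≤ ε / 2 * n := by
    have h2 : 2 / (ε / 2) ≤ (n : ℝ) := by
      refine (Nat.le_ceil _).trans ?_
      exact_mod_cast (by omega : ⌈2 / (ε / 2)⌉₊ ≤ n)
    rw [div_le_iff₀ (by positivity)] at h2
    linarith
  have havg := avg_nl C hd hC hα1 hαβ (k := 2) (m := 4) (by norm_num)
    (fun Q hQ => clique_gen hα1 hJ1 Q hQ) (by rw [hα2, hβ2]; push_cast; linarith) (A := A)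
    (by rw [hβ2]; exact hA)
  have hDn := hN1 (q * n) (by nlinarith)
  rw [hα2, hβ2] at havg
  set D : ℕ := (∏ i ∈ Finset.Ico 1 2, 2 * codeMax (q * n + 1) (cosB α β i)) *
      (J + codeMax (q * n + 1) (cosB α 1 J) + 4).choose (J + codeMax (q * n + 1) (cosB α 1 J))
    with hDd
  have e2 : (D : ℝ) ≤ (2 : ℝ) ^ (ε / 2 * n) := by
    refine hDn.trans (le_of_eq ?_)
    rw [Real.rpow_def_of_pos two_pos]
    congr 1
    rw [hγ]
    push_cast
    field_simp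
  have e4 : (4 : ℝ) ≤ (2 : ℝ) ^ (ε / 2 * n) := by
    calc (4 : ℝ) = (2 : ℝ) ^ (2 : ℝ) := by norm_num
      _ ≤ _ := Real.rpow_le_rpow_of_exponent_le (by norm_num) hcn
  have e5 : (2 : ℝ) ^ (ε * n) = (2 : ℝ) ^ (ε / 2 * n) * (2 : ℝ) ^ (ε / 2 * n) := by
    rw [← Real.rpow_add two_pos]
    congr 1
    ring
  have e6 : (C.card : ℝ) ^ 2 ≤ 4 * A * D * (pairs C ((1 + η) * d) ((2 - η) * d) + C.card) := by
    exact_mod_cast havg
  refine e6.trans ?_
  apply mul_le_mul_of_nonneg_right _ (by positivity)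
  rw [e5]
  have hA0 : (0 : ℝ) ≤ A := Nat.cast_nonneg _
  have hD0 : (0 : ℝ) ≤ D := Nat.cast_nonneg _
  have h7 : 4 * (D : ℝ) ≤ (2 : ℝ) ^ (ε / 2 * n) * (2 : ℝ) ^ (ε / 2 * n) :=
    mul_le_mul e4 e2 hD0 (by positivity)
  nlinarith

end Pool.Agent.Q313.NG
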