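import Pool.Agent.TH220.LC.Asy

/-! Codes (not necessarily linear) with few pairs at distances between `d` and `2 d`. -/

open Finset
open scoped Topology

namespace Pool.Agent.Q313.NG

open Pool.Agent.TH220.NT Pool.Agent.TH220.LC
open Pool.Agent.H818R2 (IsPacking)

variable {F : Type} [Field F] [Fintype F] [DecidableEq F]

/-- the codewords at distance strictly between `a` and `b` from `x` -/
noncomputable def midN {n : ℕ} (C : Finset (Fin n → F)) (a b : ℝ) (x : Fin n → F) :
    Finset (Fin n → F) :=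
  open scoped Classical in C.filter fun y => a < hammingDist x y ∧ (hammingDist x y : ℝ) < b

lemma mem_midN {n : ℕ} {C : Finset (Fin n → F)} {a b : ℝ} {x y : Fin n → F} :
    y ∈ midN C a b x ↔ y ∈ C ∧ a < hammingDist x y ∧ (hammingDist x y : ℝ) < b := by
  classical
  simp [midN]

/-- the other codewords at distance less than `w` from `x` -/
noncomputable def lowN {n : ℕ} (C : Finset (Fin n → F)) (w : ℝ) (x : Fin n → F) :
    Finset (Fin n → F) :=
  open scoped Classical in (C.erase x).filter fun y => (hammingDist x y : ℝ) < w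

lemma mem_lowN {n : ℕ} {C : Finset (Fin n → F)} {w : ℝ} {x y : Fin n → F} :
    y ∈ lowN C w x ↔ y ∈ C ∧ y ≠ x ∧ (hammingDist x y : ℝ) < w := by
  classical
  simp [lowN]
  tauto

theorem low_nl {n : ℕ} (C : Finset (Fin n → F)) {d : ℝ} (hd : 0 < d)
    (hC : ∀ x ∈ C, ∀ y ∈ C, x ≠ y → d ≤ hammingDist x y) {α β : ℝ}
    (hα : 1 ≤ α) (hαβ : α < β) {k a m : ℕ} (hk : 1 ≤ k)
    (hclique : ∀ Q : Finset (EuclideanSpace ℝ (Fin (Fintype.card F * n))),
      (∀ x ∈ Q, ∀ y ∈ Q, x ≠ y → 1 ≤ dist x y ∧ dist x y ≤ α) → Q.card ≤ a)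
    (hm : β ^ 2 < (m + 1) * (β ^ 2 - (2 * α ^ 2 - 1 + 1 / k))) {κ : ℕ}
    (hκ : ∀ x ∈ C, (midN C (α ^ 2 * d) (β ^ 2 * d) x).card ≤ κ) {x₀ : Fin n → F} (hx₀ : x₀ ∈ C) :
    (lowN C (β ^ 2 * d) x₀).card + 1 ≤ (κ + 1) *
      ((∏ i ∈ Finset.Ico 1 k, 2 * codeMax (Fintype.card F * n + 1) (cosB α β i)) *
        (a + m).choose a) := by
  classical
  set D : ℕ := (∏ i ∈ Finset.Ico 1 k, 2 * codeMax (Fintype.card F * n + 1) (cosB α β i)) *
    (a + m).choose a with hD
  have hα0 : 0 < α := by linarith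
  have hβ0 : 0 < β := by linarith
  set l : ℝ := √d with hl
  have hl0 : 0 < l := Real.sqrt_pos.2 hd
  have hl2 : l ^ 2 = d := Real.sq_sqrt hd.le
  set K := midN C (α ^ 2 * d) (β ^ 2 * d) x₀ with hK
  set L := lowN C (β ^ 2 * d) x₀ with hL
  set R : (Fin n → F) → (Fin n → F) → Prop := fun x y =>
    α ^ 2 * d < hammingDist x y ∧ (hammingDist x y : ℝ) < β ^ 2 * d with hR
  have hRs : ∀ x y, R x y → R y x := by
    intro x y h
    simp only [hR] at h ⊢
    rw [hammingDist_comm y x]
    exact h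
  set S := L.filter (fun w => w ∉ K) with hS
  have hD1 : 1 ≤ D := by
    rw [hD]
    apply Nat.mul_pos
    · apply Finset.prod_pos
      intro i _
      have := codeMax_pos (n := Fintype.card F * n + 1) (Nat.succ_pos _) (cosB_lt hα hβ0 i)
      omega
    · exact Nat.choose_pos (Nat.le_add_right a m)
  have hS0 : ∀ x ∈ S, x ∈ C ∧ x ≠ x₀ ∧ (hammingDist x₀ x : ℝ) < β ^ 2 * d ∧ ¬ R x₀ x := by
    intro x hx
    rw [hS, Finset.mem_filter, hL, mem_lowN, hK, mem_midN] at hx
    exact ⟨hx.1.1, hx.1.2.1, hx.1.2.2, fun h => hx.2 ⟨hx.1.1, h⟩⟩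
  have h1 : S.card ≤ (D - 1) * (κ + 1) := by
    apply greedy R hRs S
    · intro Q hQS hQ
      set Q0 := insert x₀ Q with hQ0
      have hQC : ∀ x ∈ Q0, x ∈ C := by
        intro x hx
        rw [hQ0, Finset.mem_insert] at hx
        rcases hx with rfl | hx
        · exact hx₀
        · exact (hS0 x (hQS hx)).1
      have hind : ∀ x ∈ Q0, ∀ y ∈ Q0, x ≠ y → ¬ R x y := by
        intro x hx y hy hxy
        rw [hQ0, Finset.mem_insert] at hx hy
        rcases hx with hx | hx <;> rcases hy with hy | hy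
        · exact absurd (hx.trans hy.symm) hxy
        · rw [hx]; exact (hS0 y (hQS hy)).2.2.2
        · rw [hy]; exact fun h => (hS0 x (hQS hx)).2.2.2 (hRs _ _ h)
        · exact hQ x hx y hy hxy
      have hsep : ∀ x ∈ Q0, ∀ y ∈ Q0, x ≠ y → l ≤ dist (emb x) (emb y) := by
        intro x hx y hy hxy
        have h2 : d ≤ hammingDist x y := hC x (hQC x hx) y (hQC y hy) hxy
        rw [← dist_emb, ← hl2] at h2
        exact (sq_le_sq₀ hl0.le dist_nonneg).1 h2
      have hpack : IsPacking (emb '' (Q0 : Set (Fin n → F))) (l / 2) := by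
        rw [packing_iff (by positivity)]
        rintro _ ⟨x, hx, rfl⟩ _ ⟨y, hy, rfl⟩ hxy
        have := hsep x hx y hy (fun e => hxy (by rw [e]))
        linarith
      have h2 := deg_le hα hαβ hk hclique hm hpack
        (by
          rintro _ ⟨x, hx, rfl⟩ _ ⟨y, hy, rfl⟩ hxy ⟨c1, c2⟩
          apply hind x hx y hy (fun e => hxy (by rw [e]))
          have d0 : 0 ≤ dist (emb x) (emb y) := dist_nonneg
          simp only [hR]
          rw [← dist_emb, ← hl2, ← mul_pow, ← mul_pow]
          constructor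
          · exact pow_lt_pow_left₀ (by linarith) (by positivity) (by norm_num)
          · exact pow_lt_pow_left₀ (by linarith) d0 (by norm_num))
        (x := emb x₀) ⟨x₀, by rw [hQ0]; simp, rfl⟩ (F := Q.image emb)
        (by
          intro y hy
          obtain ⟨x, hx, rfl⟩ := Finset.mem_image.1 hy
          obtain ⟨c0, c1, c2, c3⟩ := hS0 x (hQS hx)
          refine ⟨⟨x, by rw [hQ0]; simp [hx], rfl⟩, fun e => c1 (emb_inj e), ?_⟩
          have e : 2 * β * (l / 2) = β * l := by ring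
          rw [e]
          apply lt_of_pow_lt_pow_left₀ 2 (by positivity)
          rw [dist_emb, mul_pow, hl2]
          exact c2)
      rw [← hD, Finset.card_image_of_injective _ emb_inj] at h2
      omega
    · intro q hq
      apply Nat.succ_le_succ
      refine le_trans (Finset.card_le_card ?_) (hκ q (hS0 q hq).1)
      intro y hy
      rw [Finset.mem_filter, Finset.mem_erase] at hy
      rw [mem_midN]
      exact ⟨(hS0 y hy.1.2).1, hy.2⟩
  have h2 : L.card ≤ S.card + K.card := by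
    calc L.card ≤ (S ∪ K).card := Finset.card_le_card (by
          intro x hx
          rw [Finset.mem_union, hS, Finset.mem_filter]
          by_cases hxK : x ∈ K
          · exact Or.inr hxK
          · exact Or.inl ⟨hx, hxK⟩)
      _ ≤ _ := Finset.card_union_le _ _
  have hKκ : K.card ≤ κ := hκ x₀ hx₀
  obtain ⟨e, he⟩ : ∃ e, D = e + 1 := ⟨D - 1, by omega⟩
  rw [he] at h1 ⊢
  simp only [Nat.add_sub_cancel] at h1
  nlinarith

theorem card_nl {n : ℕ} (C : Finset (Fin n → F)) {w : ℝ} {A M : ℕ}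
    (hA : ∀ Q : Finset (Fin n → F), (∀ x ∈ Q, ∀ y ∈ Q, x ≠ y → w ≤ hammingDist x y) →
      Q.card ≤ A) (hM : ∀ x ∈ C, (lowN C w x).card + 1 ≤ M) :
    C.card ≤ A * M := by
  classical
  set R : (Fin n → F) → (Fin n → F) → Prop := fun x y => (hammingDist x y : ℝ) < w with hR
  have hRs : ∀ x y, R x y → R y x := by
    intro x y h
    simp only [hR] at h ⊢
    rw [hammingDist_comm y x]
    exact h
  apply greedy R hRs C
  · intro Q hQS hQ
    apply hA Q
    intro x hx y hy hxy
    have := hQ x hx y hy hxy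
    simp only [hR, not_lt] at this
    exact this
  · intro q hq
    refine le_trans (Nat.succ_le_succ (Finset.card_le_card ?_)) (hM q hq)
    intro y hy
    rw [Finset.mem_filter, Finset.mem_erase] at hy
    rw [mem_lowN]
    exact ⟨hy.1.2, hy.1.1, hy.2⟩

/-- the number of ordered pairs of codewords at distance strictly between `a` and `b` -/
noncomputable def pairs {n : ℕ} (C : Finset (Fin n → F)) (a b : ℝ) : ℕ :=
  ∑ x ∈ C, (midN C a b x).card

/-- the averaged inequality -/
theorem avg_nl {n : ℕ} (C : Finset (Fin n → F)) {d : ℝ} (hd : 0 < d)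
    (hC : ∀ x ∈ C, ∀ y ∈ C, x ≠ y → d ≤ hammingDist x y) {α β : ℝ}
    (hα : 1 ≤ α) (hαβ : α < β) {k a m : ℕ} (hk : 1 ≤ k)
    (hclique : ∀ Q : Finset (EuclideanSpace ℝ (Fin (Fintype.card F * n))),
      (∀ x ∈ Q, ∀ y ∈ Q, x ≠ y → 1 ≤ dist x y ∧ dist x y ≤ α) → Q.card ≤ a)
    (hm : β ^ 2 < (m + 1) * (β ^ 2 - (2 * α ^ 2 - 1 + 1 / k))) {A : ℕ}
    (hA : ∀ Q : Finset (Fin n → F), (∀ x ∈ Q, ∀ y ∈ Q, x ≠ y → β ^ 2 * d ≤ hammingDist x y) →
      Q.card ≤ A) :
    C.card ^ 2 ≤ 4 * A *
      ((∏ i ∈ Finset.Ico 1 k, 2 * codeMax (Fintype.card F * n + 1) (cosB α β i)) *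
        (a + m).choose a) * (pairs C (α ^ 2 * d) (β ^ 2 * d) + C.card) := by
  classical
  set D : ℕ := (∏ i ∈ Finset.Ico 1 k, 2 * codeMax (Fintype.card F * n + 1) (cosB α β i)) *
    (a + m).choose a with hD
  rcases Nat.eq_zero_or_pos C.card with h0 | hpos
  · rw [h0]
    simp
  set P := pairs C (α ^ 2 * d) (β ^ 2 * d) with hP
  set κ := 2 * P / C.card with hκ
  set C' := C.filter (fun x => (midN C (α ^ 2 * d) (β ^ 2 * d) x).card ≤ κ) with hC'
  have hsub : C' ⊆ C := Finset.filter_subset _ _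
  have hhalf : C.card ≤ 2 * C'.card := by
    have h1 : (C \ C').card * (κ + 1) ≤ P := by
      calc (C \ C').card * (κ + 1) = ∑ _x ∈ C \ C', (κ + 1) := by
            rw [Finset.sum_const, smul_eq_mul]
        _ ≤ ∑ x ∈ C \ C', (midN C (α ^ 2 * d) (β ^ 2 * d) x).card := by
            refine Finset.sum_le_sum fun x hx => ?_
            rw [Finset.mem_sdiff, hC', Finset.mem_filter] at hx
            by_contra hcon
            exact hx.2 ⟨hx.1, by omega⟩
        _ ≤ P := Finset.sum_le_sum_of_subset Finset.sdiff_subset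
    have h2 : 2 * P < (κ + 1) * C.card := by
      have := Nat.lt_div_mul_add hpos (a := 2 * P)
      rw [← hκ] at this
      linarith
    have h3 : (C \ C').card + C'.card = C.card := Finset.card_sdiff_add_card_eq_card hsub
    have h4 : 2 * (C \ C').card < C.card := by
      by_contra hcon
      push Not at hcon
      have : (κ + 1) * C.card ≤ 2 * P := by
        calc (κ + 1) * C.card ≤ (κ + 1) * (2 * (C \ C').card) := Nat.mul_le_mul_left _ hcon
          _ = 2 * ((C \ C').card * (κ + 1)) := by ring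
          _ ≤ 2 * P := Nat.mul_le_mul_left _ h1
      omega
    omega
  have hκ' : ∀ x ∈ C', (midN C' (α ^ 2 * d) (β ^ 2 * d) x).card ≤ κ := by
    intro x hx
    have h1 := (Finset.mem_filter.1 hx).2
    refine le_trans (Finset.card_le_card ?_) h1
    intro y hy
    rw [mem_midN] at hy ⊢
    exact ⟨hsub hy.1, hy.2⟩
  have hlow := fun x (hx : x ∈ C') => low_nl C' hd
    (fun x hx y hy hxy => hC x (hsub hx) y (hsub hy) hxy) hα hαβ hk hclique hm hκ' hx
  have hcard := card_nl C' hA hlow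
  rw [← hD] at hcard
  have hκP : κ * C.card ≤ 2 * P := Nat.div_mul_le_self _ _
  have h5 : C.card ≤ 2 * (A * ((κ + 1) * D)) := by omega
  calc C.card ^ 2 = C.card * C.card := sq _
    _ ≤ 2 * (A * ((κ + 1) * D)) * C.card := Nat.mul_le_mul_right _ h5
    _ = 2 * A * D * (κ * C.card + C.card) := by ring
    _ ≤ 2 * A * D * (2 * P + C.card) := Nat.mul_le_mul_left _ (by omega)
    _ ≤ 2 * A * D * (2 * (P + C.card)) := Nat.mul_le_mul_left _ (by omega)
    _ = 4 * A * D * (P + C.card) := by ring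

end Pool.Agent.Q313.NG
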